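import Pool.Agent.Q197.SP.R0ec

/-!
# Goldbach's problem with a twin condition on the index in Cramér's random model: extremal order

`A` is Cramér's random model of the primes and `el S m` the `m`-th element `≥ 3` of `S`, the model of the `m`-th prime.
Almost surely, for every large `n` there is an element `q < n` such that `2 n - q` and `el A (q + 2) + 2` are elements;
the upper limit of the least such `q` relative to `log² n (log log n)²` is `4`, and the number of `n ≤ N` for which the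
least `q` is larger than `c log² n (log log n)²` is `N ^ (1 - c / 4 + o(1))`.
-/

set_option autoImplicit false

namespace Pool.Agent.Results.MP_0ec542_nt.LeastGoodPrimeOrder

open MeasureTheory Filter Pool.Agent.Q120.MF Pool.Agent.Q197.CI Pool.Agent.Q197.SP.R0ec
open scoped Topology

theorem result :
    (∃ (Ω : Type) (_ : MeasurableSpace Ω) (μ : Measure Ω) (A : Ω → Set ℕ), IsProbabilityMeasure μ ∧ IsCramer μ A) ∧
    ∀ (Ω : Type) [MeasurableSpace Ω] (μ : Measure Ω) [IsProbabilityMeasure μ] (A : Ω → Set ℕ), IsCramer μ A →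
      -- the question, for all large `n`
      (∀ᵐ ω ∂μ, (A ω).Infinite ∧ ∀ᶠ n : ℕ in atTop, ∃ q : ℕ, q < n ∧ Sol (A ω) n q) ∧
      -- the least `q`
      (∀ c : ℝ, 4 < c → ∀ᵐ ω ∂μ, ∀ᶠ n : ℕ in atTop,
        ∃ q : ℕ, (q : ℝ) ≤ c * (Real.log n ^ 2 * Real.log (Real.log n) ^ 2) ∧ Sol (A ω) n q) ∧
      (∀ c : ℝ, 0 < c → c < 4 → ∀ᵐ ω ∂μ, Tendsto (fun N : ℕ =>
        Real.log (cntP (fun n => NoSol (Sol (A ω)) n (c * (Real.log n ^ 2 * Real.log (Real.log n) ^ 2))) N) /
          Real.log N) atTop (𝓝 (1 - c / 4))) := by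
  refine ⟨all_parts.1, fun Ω _ μ _ A hA => ?_⟩
  obtain ⟨h1, h2, h3, _, _⟩ := all_parts.2 Ω μ A hA
  exact ⟨h1, h2, h3⟩

end Pool.Agent.Results.MP_0ec542_nt.LeastGoodPrimeOrder
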