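import Pool.Agent.Q204.RS.Family

/-!
# A random condition on the prime `q` in place of the condition that `p_{q+2} + 2` is prime

Question Q1 asks for a prime `q` with `2 n - q` prime in the set `Q` of the primes `q` such that
`p_{q+2} + 2` is prime. Here the set `Q ∩ (x, 2 x]` is replaced by a random set of primes of the same (or
of a smaller) size.

For all `w` between `K log ^ 2 x` and the number of primes of `(x, 2 x]` almost all sets `S` of `w` primes of
`(x, 2 x]`, up to the proportion `x ^ (-G)`, have the following properties for EVERY `n` in `[2 x, 4 x]`: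

* the number of `q` in `S` such that `2 n - q` is a prime or a product of two large primes has exactly the
  expected order of magnitude `(2 n / φ (2 n)) w / log (2 n)`;
* the number of `q` in `S` with `2 n - q` prime is the expected proportion of the number of all primes `q` of
  `(x, 2 x]` with `2 n - q` prime, up to `ε` times the expected order of magnitude.
-/

set_option autoImplicit false

namespace Pool.Agent.Results.MP_0ec542_nt.RandomIndexCondition

open Finset

/-- the primes of the interval `(x, 2 x]` -/
def Primes (x : ℕ) : Finset ℕ := (Ioc x (2 * x)).filter Nat.Prime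

/-- `n` is a prime or a product of two primes, and all its prime factors are larger than `z` -/
def P2 (z : ℝ) (n : ℕ) : Prop :=
  (n.Prime ∨ ∃ a b : ℕ, a.Prime ∧ b.Prime ∧ n = a * b) ∧ ∀ q : ℕ, q.Prime → q ∣ n → z < q

open Classical in
/-- the number of `q` in `S` such that `2 n - q` is a prime or a product of two primes larger than `z` -/
noncomputable def chen (z : ℝ) (S : Finset ℕ) (n : ℕ) : ℕ := (S.filter (fun q => P2 z (2 * n - q))).card

/-- the number of `q` in `S` with `2 n - q` prime -/
def gold (S : Finset ℕ) (n : ℕ) : ℕ := (S.filter (fun q => (2 * n - q).Prime)).card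

/-- the expected order of magnitude of the number of representations of `2 n` with `q` in a set of `w` primes -/
noncomputable def order (w n : ℕ) : ℝ := ((2 * n : ℕ) : ℝ) / (2 * n).totient * (w / Real.log ((2 * n : ℕ) : ℝ))

/-- the regularity of a set `S` of `w` primes of `(x, 2 x]` -/
def Regular (c C ε : ℝ) (x w : ℕ) (S : Finset ℕ) : Prop := ∀ n : ℕ, 2 * x ≤ n → n ≤ 4 * x →
  c * order w n ≤ chen (((8 * x : ℕ) : ℝ) ^ (1 / 9 : ℝ)) S n ∧
  chen (((8 * x : ℕ) : ℝ) ^ (1 / 9 : ℝ)) S n ≤ C * order w n ∧
  |(gold S n : ℝ) - w / (Primes x).card * gold (Primes x) n| ≤ ε * order w n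

open Classical in
/-- **Theorem.** There are `c, C > 0` such that for all `ε > 0` and `G` there is a `K` such that for all large
`x` and all integers `w` between `K log ^ 2 x` and the number of primes of `(x, 2 x]`, all but the proportion
`x ^ (-G)` of the sets `S` of `w` primes of `(x, 2 x]` are regular: for EVERY `n` in `[2 x, 4 x]` the number of
the primes `q` in `S` with `2 n - q` a prime or a product of two primes, larger than `(8 x) ^ (1 / 9)`, is
between `c (2 n / φ (2 n)) w / log (2 n)` and `C (2 n / φ (2 n)) w / log (2 n)`, and the number of the `q` in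
`S` with `2 n - q` prime is the proportion `w / #Primes x` of their number for all primes `q` of `(x, 2 x]`, up
to an error `ε (2 n / φ (2 n)) w / log (2 n)`. -/
theorem result : ∃ c C : ℝ, 0 < c ∧ 0 < C ∧ ∀ ε : ℝ, 0 < ε → ∀ G : ℕ, ∃ K : ℝ, 0 < K ∧ ∃ x₀ : ℕ, ∀ x : ℕ,
    x₀ ≤ x → ∀ w : ℕ, K * Real.log x ^ 2 ≤ w → w ≤ (Primes x).card →
      ((powersetCard w (Primes x)).filter (fun S => ¬ Regular c C ε x w S)).card * x ^ G ≤
        (powersetCard w (Primes x)).card := by
  obtain ⟨c, C, hc, hC, h⟩ := Pool.Agent.Q204.RS.goldMostly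
  refine ⟨c, C, hc, hC, fun ε hε G => ?_⟩
  obtain ⟨K, hK, x₀, hx₀⟩ := h ε hε G
  refine ⟨K, hK, x₀, fun x hx w hw hwx => ?_⟩
  have h1 := hx₀ x hx w hw hwx
  rw [card_powersetCard]
  refine le_trans ?_ h1
  apply Nat.mul_le_mul_right
  apply card_le_card
  intro S hS
  rw [mem_filter] at hS ⊢
  refine ⟨hS.1, fun hreg => hS.2 ?_⟩
  intro n h2 h4
  exact hreg (2 * n) (even_two_mul n) (by omega) (by omega)

end Pool.Agent.Results.MP_0ec542_nt.RandomIndexCondition
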