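import Pool.Agent.Q197.SP.R0ec

/-!
# The number of the primes `q` with a twin prime of index `q + 2` in Cramér's random model

`A` is Cramér's random model of the primes and `el S m` the `m`-th element `≥ 3` of `S`, the model of the `m`-th prime.
Almost surely the number of the elements `q ≤ h` with `el A (q + 2) + 2` an element is asymptotic to `h / log² h`.
-/

set_option autoImplicit false

namespace Pool.Agent.Results.MP_0ec542_nt.TwinIndexPrimeCount

open MeasureTheory Filter Pool.Agent.Q120.MF Pool.Agent.Q197.CI Pool.Agent.Q197.SP.R0ec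
open scoped Topology

theorem result :
    (∃ (Ω : Type) (_ : MeasurableSpace Ω) (μ : Measure Ω) (A : Ω → Set ℕ), IsProbabilityMeasure μ ∧ IsCramer μ A) ∧
    ∀ (Ω : Type) [MeasurableSpace Ω] (μ : Measure Ω) [IsProbabilityMeasure μ] (A : Ω → Set ℕ), IsCramer μ A →
      ∀ᵐ ω ∂μ, Tendsto (fun h : ℕ => ({q : ℕ | 3 ≤ q ∧ q ≤ h ∧ q ∈ A ω ∧ el (A ω) (q + 2) + 2 ∈ A ω}.ncard : ℝ) *
        Real.log h ^ 2 / h) atTop (𝓝 1) := by
  refine ⟨all_parts.1, fun Ω _ μ _ A hA => ?_⟩
  exact (all_parts.2 Ω μ A hA).2.2.2.2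

end Pool.Agent.Results.MP_0ec542_nt.TwinIndexPrimeCount
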